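import Pool.Agent.Lib.MP_b685ef_ag.ZO.FinE

/-!
MP_b685ef_ag: transfer of Frobenius semisimplicity between geometrically related families, part 1:
if the irreducible constituents of `V` on the normal subgroup `G0` occur in `T`, and `T(g)` is
semisimple, then the unipotent part of `V(g)` commutes with `G0`.
-/

open Polynomial

namespace MPb685TR

open MPb685ZO MPb685ZO.JM

variable {K : Type*} [Field K] {V : Type*} [AddCommGroup V] [Module K V]
  {T : Type*} [AddCommGroup T] [Module K T] {G : Type*} [Group G]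

/-- `S` is a nonzero subspace, stable under `ρ c` for `c ∈ X`, without smaller ones -/
def Irr (ρ : Representation K G V) (X : Set G) (S : Submodule K V) : Prop :=
  S ≠ ⊥ ∧ Stab ρ X S ∧ ∀ S' : Submodule K V, Stab ρ X S' → S' ≤ S → S' = ⊥ ∨ S' = S

/-- there is a nonzero map from `S` to `T` which commutes with `X` -/
def Occurs (ρ : Representation K G V) (τ : Representation K G T) (X : Set G)
    (S : Submodule K V) : Prop :=
  ∃ f : V →ₗ[K] T, (∃ v ∈ S, f v ≠ 0) ∧ ∀ c ∈ X, ∀ v ∈ S, f (ρ c v) = τ c (f v)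

section irr

variable [FiniteDimensional K V] (ρ : Representation K G V) (X : Set G)

theorem exists_irr (W : Submodule K V) (hW : Stab ρ X W) (hne : W ≠ ⊥) :
    ∃ S, Irr ρ X S ∧ S ≤ W := by
  obtain ⟨S, hS, hmin⟩ := WellFounded.has_min (wellFounded_lt (α := Submodule K V))
    {S | Stab ρ X S ∧ S ≤ W ∧ S ≠ ⊥} ⟨W, hW, le_rfl, hne⟩
  refine ⟨S, ⟨hS.2.2, hS.1, ?_⟩, hS.2.1⟩
  intro S' hS' hle
  by_cases h : S' = ⊥
  · exact Or.inl h
  · right
    by_contra hne'
    exact hmin S' ⟨hS', hle.trans hS.2.1, h⟩ (lt_of_le_of_ne hle hne')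

theorem sup_irr (h0 : SSOn ρ X) : sSup {S | Irr ρ X S} = ⊤ := by
  have hst : Stab ρ X (sSup {S | Irr ρ X S}) := by
    intro c hc w hw
    have hle : sSup {S | Irr ρ X S} ≤ (sSup {S | Irr ρ X S}).comap (ρ c) := by
      apply sSup_le
      intro S hS v hv
      exact (le_sSup hS : S ≤ sSup {S | Irr ρ X S}) (hS.2.1 c hc v hv)
    exact hle hw
  obtain ⟨W', hW', hcompl⟩ := h0 _ hst
  by_cases h : W' = ⊥
  · have := hcompl.sup_eq_top
    rwa [h, sup_bot_eq] at this
  · exfalso
    obtain ⟨S, hS, hSW⟩ := exists_irr ρ X W' hW' h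
    have h1 : S ≤ sSup {S | Irr ρ X S} := le_sSup hS
    have h2 : S ≤ ⊥ := by
      rw [← hcompl.inf_eq_bot]
      exact le_inf h1 hSW
    exact hS.1 (le_bot_iff.1 h2)

end irr

/-- the graph of the two representations -/
def gr (ρ : Representation K G V) (τ : Representation K G T) (X : Set G) :
    Submodule K (Module.End K T × Module.End K V) :=
  Submodule.span K ((fun c => (τ c, ρ c)) '' X)

theorem rel [FiniteDimensional K V] (ρ : Representation K G V) (τ : Representation K G T)
    (X : Set G) (h0 : SSOn ρ X) (hocc : ∀ S, Irr ρ X S → Occurs ρ τ X S) :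
    ∀ x ∈ gr ρ τ X, x.1 = 0 → x.2 = 0 := by
  intro x hx hx1
  have hkill : ∀ S, Irr ρ X S → ∀ v ∈ S, x.2 v = 0 := by
    intro S hS v hv
    obtain ⟨f, ⟨v0, hv0, hfv0⟩, hf⟩ := hocc S hS
    have hprop : ∀ x ∈ gr ρ τ X, ∀ v ∈ S, x.2 v ∈ S ∧ f (x.2 v) = x.1 (f v) := by
      intro x hx
      induction hx using Submodule.span_induction with
      | mem x hx =>
        obtain ⟨c, hc, rfl⟩ := hx
        intro v hv
        exact ⟨hS.2.1 c hc v hv, hf c hc v hv⟩
      | zero =>
        intro v _
        exact ⟨S.zero_mem, by simp⟩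
      | add x y _ _ hx hy =>
        intro v hv
        refine ⟨S.add_mem (hx v hv).1 (hy v hv).1, ?_⟩
        show f (x.2 v + y.2 v) = x.1 (f v) + y.1 (f v)
        rw [map_add, (hx v hv).2, (hy v hv).2]
      | smul a x _ hx =>
        intro v hv
        refine ⟨S.smul_mem a (hx v hv).1, ?_⟩
        show f (a • x.2 v) = a • x.1 (f v)
        rw [map_smul, (hx v hv).2]
    obtain ⟨h1, h2⟩ := hprop x hx v hv
    rw [hx1, LinearMap.zero_apply] at h2
    -- the kernel of `f` on `S`
    have hker : Stab ρ X (S ⊓ LinearMap.ker f) := by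
      intro c hc w hw
      refine ⟨hS.2.1 c hc w hw.1, ?_⟩
      show ρ c w ∈ LinearMap.ker f
      rw [LinearMap.mem_ker, hf c hc w hw.1, LinearMap.mem_ker.1 hw.2, map_zero]
    rcases hS.2.2 _ hker inf_le_left with h | h
    · have : x.2 v ∈ S ⊓ LinearMap.ker f := ⟨h1, h2⟩
      rw [h] at this
      exact (Submodule.mem_bot K).1 this
    · exfalso
      apply hfv0
      have : v0 ∈ S ⊓ LinearMap.ker f := by
        rw [h]
        exact hv0
      exact this.2
  have htop : (⊤ : Submodule K V) ≤ LinearMap.ker x.2 := by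
    rw [← sup_irr ρ X h0]
    apply sSup_le
    intro S hS v hv
    exact hkill S hS v hv
  exact LinearMap.ker_eq_top.1 (top_le_iff.1 htop)

section jordan

variable [CharZero K] {M : Type*} [AddCommGroup M] [Module K M] [FiniteDimensional K M]

/-- if an operator is semisimple on a stable subspace, its semisimple part agrees with it there -/
theorem lemmaJ2 (A N S : Module.End K M) (hA : A = N + S) (hN : IsNilpotent N)
    (hS : S.IsSemisimple) (hNS : Commute N S) (C : Submodule K M)
    (hC : ∀ x ∈ C, A x ∈ C) (hss : Module.End.IsSemisimple (A.restrict hC)) :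
    ∀ x ∈ C, S x = A x := by
  have hSC := adjoin_stable A C hC S (mem_adjoin_of_jordan A N S hA hN hS hNS)
  have hNC : ∀ x ∈ C, N x ∈ C := by
    intro x hx
    have h : N x = A x - S x := by rw [hA]; simp
    rw [h]
    exact C.sub_mem (hC x hx) (hSC x hx)
  have hNr : IsNilpotent (N.restrict hNC) := by
    obtain ⟨k, hk⟩ := hN
    refine ⟨k, ?_⟩
    rw [Module.End.pow_restrict k hNC]
    ext x
    rw [LinearMap.restrict_apply]
    simp [hk]
  have h1 := Module.End.isNilpotent_isSemisimple_unique hNr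
    (Module.End.IsSemisimple.restrict (p := C) hSC hS) (IsNilpotent.zero) hss
    (by
      ext x
      have := congrArg (fun f : Module.End K M => f x) hNS.eq
      simpa [LinearMap.restrict_apply] using this)
    (Commute.zero_left _)
    (by
      ext x
      have h2 : A (x : M) = N x + S x := by rw [hA]; rfl
      rw [zero_add]
      exact h2.symm)
  intro x hx
  have h3 := congrArg (fun f : Module.End K C => ((f ⟨x, hx⟩ : C) : M)) h1.2
  simpa [LinearMap.restrict_apply] using h3

end jordan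

section main

variable [CharZero K] [FiniteDimensional K V] [FiniteDimensional K T]
  (ρ : Representation K G V) (τ : Representation K G T)

/-- if `T(g)` is semisimple then conjugation by `V(g)` is semisimple on the span of `V(G0)` -/
theorem ad_restrict_semisimple (G0 : Subgroup G) [G0.Normal] (g : G)
    (hrel : ∀ x ∈ gr ρ τ (G0 : Set G), x.1 = 0 → x.2 = 0) (hg : Module.End.IsSemisimple (τ g))
    (hB : ∀ x ∈ Submodule.span K (ρ '' (G0 : Set G)),
      Ad (rU ρ g) x ∈ Submodule.span K (ρ '' (G0 : Set G))) :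
    Module.End.IsSemisimple ((Ad (rU ρ g)).restrict hB) := by
  have hT : (Ad (rU τ g)).IsSemisimple := Ad_semisimple _ hg
  set p := minpoly K (Ad (rU τ g)) with hp
  have hsq : Squarefree p := Module.End.IsSemisimple.minpoly_squarefree hT
  have hp0 : aeval (Ad (rU τ g)) p = 0 := minpoly.aeval K _
  -- the graph is stable
  have hgr : ∀ q : K[X], ∀ x ∈ gr ρ τ (G0 : Set G),
      ((aeval (Ad (rU τ g)) q) x.1, (aeval (Ad (rU ρ g)) q) x.2) ∈ gr ρ τ (G0 : Set G) := by
    have h1 : ∀ x ∈ gr ρ τ (G0 : Set G),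
        (Ad (rU τ g) x.1, Ad (rU ρ g) x.2) ∈ gr ρ τ (G0 : Set G) := by
      intro x hx
      induction hx using Submodule.span_induction with
      | mem x hx =>
        obtain ⟨c, hc, rfl⟩ := hx
        show (Ad (rU τ g) (τ c), Ad (rU ρ g) (ρ c)) ∈ gr ρ τ (G0 : Set G)
        rw [Ad_rho, Ad_rho]
        exact Submodule.subset_span ⟨_, (inferInstance : G0.Normal).conj_mem c hc g, rfl⟩
      | zero =>
        show (Ad (rU τ g) 0, Ad (rU ρ g) 0) ∈ gr ρ τ (G0 : Set G)
        rw [map_zero, map_zero]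
        exact (gr ρ τ (G0 : Set G)).zero_mem
      | add x y _ _ hx hy =>
        show (Ad (rU τ g) (x.1 + y.1), Ad (rU ρ g) (x.2 + y.2)) ∈ gr ρ τ (G0 : Set G)
        rw [map_add, map_add]
        exact (gr ρ τ (G0 : Set G)).add_mem hx hy
      | smul a x _ hx =>
        show (Ad (rU τ g) (a • x.1), Ad (rU ρ g) (a • x.2)) ∈ gr ρ τ (G0 : Set G)
        rw [map_smul, map_smul]
        exact (gr ρ τ (G0 : Set G)).smul_mem a hx
    intro q
    induction q using Polynomial.induction_on' with
    | add q r hq hr =>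
      intro x hx
      rw [map_add, map_add]
      exact (gr ρ τ (G0 : Set G)).add_mem (hq x hx) (hr x hx)
    | monomial n a =>
      have hpow : ∀ n : ℕ, ∀ x ∈ gr ρ τ (G0 : Set G),
          (((Ad (rU τ g)) ^ n) x.1, ((Ad (rU ρ g)) ^ n) x.2) ∈ gr ρ τ (G0 : Set G) := by
        intro n
        induction n with
        | zero => intro x hx; exact hx
        | succ n ih =>
          intro x hx
          rw [pow_succ, pow_succ]
          exact ih _ (h1 x hx)
      intro x hx
      rw [aeval_monomial, aeval_monomial]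
      have := (gr ρ τ (G0 : Set G)).smul_mem a (hpow n x hx)
      simpa [Algebra.algebraMap_eq_smul_one] using this
  have hlift : ∀ y ∈ Submodule.span K (ρ '' (G0 : Set G)), ∃ x ∈ gr ρ τ (G0 : Set G), x.2 = y := by
    intro y hy
    induction hy using Submodule.span_induction with
    | mem y hy =>
      obtain ⟨c, hc, rfl⟩ := hy
      exact ⟨(τ c, ρ c), Submodule.subset_span ⟨c, hc, rfl⟩, rfl⟩
    | zero => exact ⟨0, (gr ρ τ (G0 : Set G)).zero_mem, rfl⟩
    | add y z _ _ hy hz =>
      obtain ⟨a, ha, rfl⟩ := hy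
      obtain ⟨b, hb, rfl⟩ := hz
      exact ⟨a + b, (gr ρ τ (G0 : Set G)).add_mem ha hb, rfl⟩
    | smul a y _ hy =>
      obtain ⟨b, hb, rfl⟩ := hy
      exact ⟨a • b, (gr ρ τ (G0 : Set G)).smul_mem a hb, rfl⟩
  have hkill : ∀ y ∈ Submodule.span K (ρ '' (G0 : Set G)), (aeval (Ad (rU ρ g)) p) y = 0 := by
    intro y hy
    obtain ⟨x, hx, rfl⟩ := hlift y hy
    apply hrel _ (hgr p x hx)
    show (aeval (Ad (rU τ g)) p) x.1 = 0
    rw [hp0, LinearMap.zero_apply]
  apply Module.End.isSemisimple_of_squarefree_aeval_eq_zero hsq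
  ext y : 1
  have h2 : ∀ q : K[X], ∀ y : Submodule.span K (ρ '' (G0 : Set G)),
      (((aeval ((Ad (rU ρ g)).restrict hB) q) y : Submodule.span K (ρ '' (G0 : Set G))) :
        Module.End K V) = (aeval (Ad (rU ρ g)) q) y := by
    intro q
    induction q using Polynomial.induction_on' with
    | add q r hq hr =>
      intro y
      rw [map_add, map_add, LinearMap.add_apply, Submodule.coe_add, hq, hr, LinearMap.add_apply]
    | monomial n a =>
      intro y
      rw [aeval_monomial, aeval_monomial, Module.End.pow_restrict n hB]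
      simp [Algebra.algebraMap_eq_smul_one, LinearMap.restrict_apply]
  apply Subtype.ext
  rw [h2 p y, hkill y.1 y.2]
  rfl

/-- the unipotent part of `V(g)` commutes with `G0` if `T(g)` is semisimple -/
theorem unip_comm (G0 : Subgroup G) [G0.Normal] (h0 : SSOn ρ (G0 : Set G))
    (hocc : ∀ S, Irr ρ (G0 : Set G) S → Occurs ρ τ (G0 : Set G) S) (g : G)
    (hg : Module.End.IsSemisimple (τ g)) (s u : (Module.End K V)ˣ) (h : IsJD (rU ρ g) s u) :
    (u : Module.End K V) ∈ P1G.comm ρ G0 := by
  obtain ⟨N, hN, hNn, hNc⟩ := h.ad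
  let B : Submodule K (Module.End K V) := Submodule.span K (ρ '' (G0 : Set G))
  have hB : ∀ x ∈ B, Ad (rU ρ g) x ∈ B := by
    intro x hx
    have hle : B ≤ B.comap (Ad (rU ρ g)) := by
      refine Submodule.span_le.mpr ?_
      rintro _ ⟨c, hc, rfl⟩
      change Ad (rU ρ g) (ρ c) ∈ B
      rw [Ad_rho]
      exact Submodule.subset_span ⟨_, (inferInstance : G0.Normal).conj_mem c hc g, rfl⟩
    exact hle hx
  have hss := ad_restrict_semisimple ρ τ G0 g (rel ρ τ _ h0 hocc) hg hB
  have hJ := lemmaJ2 (Ad (rU ρ g)) N (Ad s) hN hNn (Ad_semisimple s h.ss) hNc B hB hss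
  intro c hc
  have hcB : ρ c ∈ B := Submodule.subset_span ⟨c, hc, rfl⟩
  have h1 : Ad s (Ad u (ρ c)) = Ad s (ρ c) := by
    rw [hJ _ hcB, ← Module.End.mul_apply, ← Ad_mul, ← h.eq]
  have h2 := Ad_injective s h1
  exact ((Ad_eq_self_iff u (ρ c)).mp h2).eq

end main

end MPb685TR
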