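import Pool.Agent.Lib.MP_b685ef_ag.TR.TR1

/-!
MP_b685ef_ag: transfer of Frobenius semisimplicity, part 2: one unipotent operator `w` for all
elements of positive degree whose unipotent part commutes with the kernel of the degree map;
twisting by `w ^ (-degree)` makes the representation semisimple.
-/

open Polynomial

namespace MPb685TR

open MPb685ZO MPb685ZO.JM

variable {K : Type*} [Field K] {V : Type*} [AddCommGroup V] [Module K V]
  {G : Type*} [Group G]

section glue

variable [CharZero K] [FiniteDimensional K V]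

/-- The unipotent parts of all elements of positive degree whose unipotent part commutes with `G0`
are powers of one unipotent operator, which commutes with the whole group. -/
theorem glue (ρ : Representation K G V)
    (G0 : Subgroup G) [G0.Normal] (h0 : SSOn ρ (G0 : Set G))
    (hab : ∀ a b : G, a * b * a⁻¹ * b⁻¹ ∈ G0) {P : Type*} (Fr : P → G) (deg : P → ℕ)
    (hpos : ∀ x, deg x ≠ 0) (hdeg : ∀ x y, (Fr x ^ deg y)⁻¹ * Fr y ^ deg x ∈ G0)
    (hgood : ∀ x (s u : (Module.End K V)ˣ), IsJD (rU ρ (Fr x)) s u →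
      (u : Module.End K V) ∈ P1G.comm ρ G0) :
    ∃ w : Module.End K V, IsNilpotent (w - 1) ∧ (∀ g, Commute w (ρ g)) ∧
      ∀ y, ∃ s : Module.End K V, s.IsSemisimple ∧ ρ (Fr y) = s * w ^ deg y := by
  classical
  by_cases hne : Nonempty P
  swap
  · exact ⟨1, ⟨1, by simp⟩, fun g => Commute.one_left _, fun y => absurd ⟨y⟩ hne⟩
  obtain ⟨x⟩ := hne
  obtain ⟨sx, ux, hx⟩ := exists_JD (rU ρ (Fr x))
  have huxC := hgood x sx ux hx
  -- `ux` commutes with the whole group
  have huxG : ∀ g, Commute (ux : Module.End K V) (ρ g) := by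
    intro g
    have h1 := hx.conj (rU ρ g)
    rw [← map_inv, ← map_mul, ← map_mul] at h1
    have h2 : ((rU ρ g * ux * rU ρ g⁻¹ : (Module.End K V)ˣ) : Module.End K V) ∈
        P1G.comm ρ G0 := by
      have h3 := Ad_comm_mem ρ G0 g _ huxC
      rw [Ad_apply, ← map_inv] at h3
      rw [Units.val_mul, Units.val_mul, mul_assoc]
      exact h3
    have h3 : (Fr x)⁻¹ * (g * Fr x * g⁻¹) ∈ G0 := by
      have := hab (Fr x)⁻¹ g
      simpa [mul_assoc] using this
    have h4 := unip_eq ρ G0 h0 (Fr x) (g * Fr x * g⁻¹) h3 sx ux _ _ hx h1 huxC h2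
    have h5 : Ad (rU ρ g) (ux : Module.End K V) = ux := by
      rw [Ad_apply, ← map_inv, ← mul_assoc, ← Units.val_mul, ← Units.val_mul, ← h4]
    exact ((Ad_eq_self_iff (rU ρ g) _).mp h5).symm
  obtain ⟨w, hwa, hwn, hwd⟩ := exists_root K (ux : Module.End K V) hx.un (hpos x)
  have hwcomm : ∀ y : Module.End K V, Commute (ux : Module.End K V) y → Commute w y := by
    intro y hy
    exact (Algebra.commute_of_mem_adjoin_singleton_of_commute hwa hy.symm).symm
  refine ⟨w, hwn, fun g => hwcomm _ (huxG g), ?_⟩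
  intro y
  obtain ⟨sy, uy, hy⟩ := exists_JD (rU ρ (Fr y))
  have huyC := hgood y sy uy hy
  have hCpow : ∀ {v : (Module.End K V)ˣ} (k : ℕ), (v : Module.End K V) ∈ P1G.comm ρ G0 →
      ((v ^ k : (Module.End K V)ˣ) : Module.End K V) ∈ P1G.comm ρ G0 := by
    intro v k hv c hc
    have : Commute (v : Module.End K V) (ρ c) := hv c hc
    rw [Units.val_pow_eq_pow_val]
    exact (this.pow_left k).eq
  have hxp := hx.pow (deg y)
  have hyp := hy.pow (deg x)
  rw [← map_pow] at hxp hyp
  have heq : ux ^ deg y = uy ^ deg x :=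
    unip_eq ρ G0 h0 _ _ (hdeg x y) _ _ _ _ hxp hyp (hCpow _ huxC) (hCpow _ huyC)
  -- `w` as a unit
  have hwu : IsUnit w := by
    have : w = 1 + (w - 1) := by abel
    rw [this]
    exact hwn.isUnit_one_add
  obtain ⟨v, rfl⟩ := hwu
  have hvx : v ^ deg x = ux := by
    apply Units.ext
    rw [Units.val_pow_eq_pow_val]
    exact hwd
  have hvy : Commute v uy := by
    have h1 : Commute (ux : Module.End K V) (uy : Module.End K V) :=
      (hy.comm_of (huxG (Fr y)).symm).symm
    exact Units.ext (hwcomm _ h1).eq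
  have hun : IsNilpotent (((v ^ deg y : (Module.End K V)ˣ) : Module.End K V) - 1) := by
    rw [Units.val_pow_eq_pow_val, ← geom_sum_mul]
    refine Commute.isNilpotent_mul_left ?_ hwn
    apply Commute.sub_right _ (Commute.one_right _)
    refine Commute.sum_left _ _ _ fun i _ => ?_
    exact (Commute.refl (v : Module.End K V)).pow_left i
  have hfin : uy = v ^ deg y := by
    apply root_inj K (hvy.symm.pow_right _) hy.un hun (hpos x)
    rw [← heq, ← hvx, ← pow_mul, ← pow_mul, mul_comm]
  refine ⟨sy, hy.ss, ?_⟩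
  have h6 := congrArg Units.val hy.eq
  rw [hfin, Units.val_mul, Units.val_pow_eq_pow_val] at h6
  exact h6

end glue

/-- the degree as an integer -/
def dg (d : G →* Multiplicative ℤ) (g : G) : ℤ := Multiplicative.toAdd (d g)

section dg

variable (d : G →* Multiplicative ℤ)

lemma dg_mul (g h : G) : dg d (g * h) = dg d g + dg d h := by
  unfold dg
  rw [map_mul, toAdd_mul]

lemma dg_one : dg d 1 = 0 := by
  unfold dg
  rw [map_one, toAdd_one]

lemma dg_inv (g : G) : dg d g⁻¹ = -dg d g := by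
  unfold dg
  rw [map_inv, toAdd_inv]

lemma dg_pow (g : G) (n : ℕ) : dg d (g ^ n) = n * dg d g := by
  unfold dg
  rw [map_pow, toAdd_pow]
  simp

lemma dg_zpow (g : G) (n : ℤ) : dg d (g ^ n) = n * dg d g := by
  unfold dg
  rw [map_zpow, toAdd_zpow]
  simp

lemma mem_ker_iff (g : G) : g ∈ d.ker ↔ dg d g = 0 := by
  unfold dg
  rw [MonoidHom.mem_ker]
  exact Iff.rfl

/-- the elements whose degree is divisible by `m` -/
def kmod (m : ℤ) : Subgroup G where
  carrier := {g | m ∣ dg d g}
  mul_mem' := by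
    intro a b ha hb
    show m ∣ dg d (a * b)
    rw [dg_mul]
    exact dvd_add ha hb
  one_mem' := by
    show m ∣ dg d 1
    rw [dg_one]
    exact dvd_zero m
  inv_mem' := by
    intro a ha
    show m ∣ dg d a⁻¹
    rw [dg_inv]
    exact (dvd_neg).2 ha

lemma mem_kmod (m : ℤ) (g : G) : g ∈ kmod d m ↔ m ∣ dg d g := Iff.rfl

instance kmod_normal (m : ℤ) : (kmod d m).Normal where
  conj_mem := by
    intro a ha g
    rw [mem_kmod] at ha ⊢
    rw [dg_mul, dg_mul, dg_inv]
    have : dg d g + dg d a + -dg d g = dg d a := by ring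
    rw [this]
    exact ha

lemma kmod_finiteIndex (m : ℤ) (hm : m ≠ 0) : (kmod d m).FiniteIndex := by
  -- the map to `ZMod m.natAbs`
  have : NeZero m.natAbs := ⟨Int.natAbs_ne_zero.2 hm⟩
  let φ : G →* Multiplicative (ZMod m.natAbs) :=
    (AddMonoidHom.toMultiplicative (Int.castAddHom (ZMod m.natAbs))).comp d
  have hk : φ.ker = kmod d m := by
    ext g
    rw [MonoidHom.mem_ker, mem_kmod]
    have h1 : φ g = 1 ↔ ((dg d g : ℤ) : ZMod m.natAbs) = 0 := Iff.rfl
    rw [h1, ZMod.intCast_zmod_eq_zero_iff_dvd]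
    exact Int.natAbs_dvd
  rw [← hk]
  infer_instance

end dg

section twist

/-- `ρ` twisted by the powers of `w` -/
def tw (ρ : Representation K G V) (d : G →* Multiplicative ℤ) (w : (Module.End K V)ˣ)
    (hw : ∀ g, Commute (w : Module.End K V) (ρ g)) : Representation K G V where
  toFun g := ρ g * ((w ^ (-dg d g) : (Module.End K V)ˣ) : Module.End K V)
  map_one' := by rw [dg_one, neg_zero, zpow_zero, map_one, Units.val_one, mul_one]
  map_mul' := by
    intro a b
    have h : Commute w (rU ρ b) := Units.ext (hw b).eq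
    have h2 : Commute ((w ^ (-dg d a) : (Module.End K V)ˣ) : Module.End K V) (ρ b) :=
      congrArg Units.val (h.zpow_left (-dg d a)).eq
    rw [dg_mul, neg_add, zpow_add, Units.val_mul, map_mul]
    calc ρ a * ρ b * (((w ^ (-dg d a) : (Module.End K V)ˣ) : Module.End K V) *
          ((w ^ (-dg d b) : (Module.End K V)ˣ) : Module.End K V))
        = ρ a * (ρ b * ((w ^ (-dg d a) : (Module.End K V)ˣ) : Module.End K V)) *
          ((w ^ (-dg d b) : (Module.End K V)ˣ) : Module.End K V) := by noncomm_ring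
      _ = _ := by rw [← h2.eq]; noncomm_ring

variable (ρ : Representation K G V) (d : G →* Multiplicative ℤ) (w : (Module.End K V)ˣ)
    (hw : ∀ g, Commute (w : Module.End K V) (ρ g))

lemma tw_apply (g : G) :
    tw ρ d w hw g = ρ g * ((w ^ (-dg d g) : (Module.End K V)ˣ) : Module.End K V) := rfl

lemma tw_ker (g : G) (hg : dg d g = 0) : tw ρ d w hw g = ρ g := by
  rw [tw_apply, hg, neg_zero, zpow_zero, Units.val_one, mul_one]

lemma tw_mul (g : G) :
    ρ g = tw ρ d w hw g * ((w ^ (dg d g) : (Module.End K V)ˣ) : Module.End K V) := by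
  rw [tw_apply, mul_assoc, ← Units.val_mul, ← zpow_add, neg_add_cancel, zpow_zero, Units.val_one,
    mul_one]

lemma tw_nat (g : G) (n : ℕ) (hn : dg d g = n) (s : Module.End K V)
    (hs : ρ g = s * (w : Module.End K V) ^ n) : tw ρ d w hw g = s := by
  rw [tw_apply, hs, hn, mul_assoc, ← Units.val_pow_eq_pow_val, ← Units.val_mul,
    ← zpow_natCast, ← zpow_add, add_neg_cancel, zpow_zero, Units.val_one, mul_one]

end twist

section exw

variable [CharZero K] [FiniteDimensional K V]

omit [CharZero K] in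
/-- inverse of a Jordan decomposition -/
lemma isJD_inv {a s u : (Module.End K V)ˣ} (h : IsJD a s u) : IsJD a⁻¹ s⁻¹ u⁻¹ := by
  refine ⟨?_, ?_, ?_, ?_⟩
  · rw [h.eq, mul_inv_rev, h.comm.inv_inv.eq]
  · exact h.comm.inv_inv
  · exact P1G.semisimple_inv _ _ (by rw [Units.inv_mul]) h.ss
  · exact inv_sub_one_nilpotent u h.un

/-- there is an element of positive degree whose unipotent part commutes with the kernel -/
theorem exists_good (ρ : Representation K G V) (d : G →* Multiplicative ℤ)
    (hd : ∃ g, d g ≠ 1) (h0 : SSOn ρ (d.ker : Set G)) :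
    ∃ a : G, 0 < dg d a ∧ ∀ s u : (Module.End K V)ˣ, IsJD (rU ρ a) s u →
      (u : Module.End K V) ∈ P1G.comm ρ d.ker := by
  obtain ⟨g, hg⟩ := hd
  have hg0 : dg d g ≠ 0 := fun h => hg ((mem_ker_iff d g).2 h)
  -- a modulus larger than the degree
  set m : ℤ := |dg d g| + 1 with hm
  have hm0 : m ≠ 0 := by positivity
  have := kmod_finiteIndex d m hm0
  obtain ⟨v, hv, hmax⟩ := MAXF.exists_max ρ (kmod d m) g
  have hav : ∀ v' ∈ kmod d m, nEig (ρ (g * v * v')) ≤ nEig (ρ (g * v)) := by
    intro v' hv'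
    have := hmax (v * v') ((kmod d m).mul_mem hv hv')
    rwa [← mul_assoc] at this
  have hne : dg d (g * v) ≠ 0 := by
    intro h
    rw [dg_mul] at h
    have hdv : m ∣ dg d v := hv
    have h1 : m ∣ dg d g := by
      have : dg d g = -dg d v := by linarith
      rw [this]
      exact (dvd_neg).2 hdv
    have h2 := Int.le_of_dvd (abs_pos.2 hg0) ((dvd_abs _ _).2 h1)
    rw [hm] at h2
    linarith
  have hcom : ∀ s u : (Module.End K V)ˣ, IsJD (rU ρ (g * v)) s u →
      (u : Module.End K V) ∈ P1G.comm ρ d.ker := fun s u h =>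
    JM.unip_comm ρ d.ker h0 (kmod d m) (g * v) hav s u h
  rcases lt_or_gt_of_ne hne with h | h
  · refine ⟨(g * v)⁻¹, by rw [dg_inv]; linarith, ?_⟩
    intro s u hsu
    have h1 : IsJD (rU ρ (g * v)) s⁻¹ u⁻¹ := by
      have := isJD_inv hsu
      rwa [map_inv, inv_inv] at this
    have h2 := hcom _ _ h1
    intro c hc
    have h3 : Commute ((u⁻¹ : (Module.End K V)ˣ) : Module.End K V) (ρ c) := h2 c hc
    have h4 : Commute (u⁻¹ : (Module.End K V)ˣ) (rU ρ c) := Units.ext h3.eq
    have h5 : Commute u (rU ρ c) := by simpa using h4.inv_left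
    exact congrArg Units.val h5.eq
  · exact ⟨g * v, h, hcom⟩

omit [CharZero K] [FiniteDimensional K V] in
lemma isUnit_of_unip (w : Module.End K V) (hw : IsNilpotent (w - 1)) : IsUnit w := by
  have : w = 1 + (w - 1) := by abel
  rw [this]
  exact hw.isUnit_one_add

/-- One unipotent operator `w` which commutes with the group, such that the twist of `ρ` by
`w ^ (-degree)` is semisimple, and all elements of positive degree whose unipotent part commutes
with the kernel are semisimple in the twist. -/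
theorem exists_w (ρ : Representation K G V) (d : G →* Multiplicative ℤ)
    (hd : ∃ g, d g ≠ 1) (h0 : SSOn ρ (d.ker : Set G)) :
    ∃ (w : (Module.End K V)ˣ) (hw : ∀ g, Commute (w : Module.End K V) (ρ g)),
      IsNilpotent ((w : Module.End K V) - 1) ∧ SSOn (tw ρ d w hw) Set.univ ∧
      ∀ g, 0 < dg d g → (∀ s u : (Module.End K V)ˣ, IsJD (rU ρ g) s u →
        (u : Module.End K V) ∈ P1G.comm ρ d.ker) → Module.End.IsSemisimple (tw ρ d w hw g) := by
  classical
  let P := {g : G // 0 < dg d g ∧ ∀ s u : (Module.End K V)ˣ, IsJD (rU ρ g) s u →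
        (u : Module.End K V) ∈ P1G.comm ρ d.ker}
  have hcast : ∀ x : P, (((dg d x.1).toNat : ℕ) : ℤ) = dg d x.1 := fun x =>
    Int.toNat_of_nonneg x.2.1.le
  obtain ⟨w, hwn, hwc, hwx⟩ := glue ρ d.ker h0
    (by
      intro a b
      rw [mem_ker_iff, dg_mul, dg_mul, dg_mul, dg_inv, dg_inv]
      ring)
    (P := P) (fun x => x.1) (fun x => (dg d x.1).toNat)
    (by
      intro x hx
      have h1 := hcast x
      rw [hx] at h1
      have h2 := x.2.1
      rw [← h1] at h2
      exact absurd h2 (lt_irrefl _))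
    (by
      intro x y
      rw [mem_ker_iff, dg_mul, dg_inv, dg_pow, dg_pow, hcast, hcast]
      ring)
    (fun x s u h => x.2.2 s u h)
  obtain ⟨w, rfl⟩ := isUnit_of_unip w hwn
  have hss : ∀ g, 0 < dg d g → (∀ s u : (Module.End K V)ˣ, IsJD (rU ρ g) s u →
        (u : Module.End K V) ∈ P1G.comm ρ d.ker) → Module.End.IsSemisimple (tw ρ d w hwc g) := by
    intro g hg hgood
    obtain ⟨s, hs, hgs⟩ := hwx ⟨g, hg, hgood⟩
    rw [tw_nat ρ d w hwc g (dg d g).toNat (Int.toNat_of_nonneg hg.le).symm s hgs]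
    exact hs
  refine ⟨w, hwc, hwn, ?_, hss⟩
  obtain ⟨a, ha, hagood⟩ := exists_good ρ d hd h0
  have := kmod_finiteIndex d (dg d a) ha.ne'
  have hst : ∀ W : Submodule K V, Stab (tw ρ d w hwc) (d.ker : Set G) W ↔
      Stab ρ (d.ker : Set G) W := by
    intro W
    constructor
    · intro h c hc v hv
      have := h c hc v hv
      rwa [tw_ker ρ d w hwc c ((mem_ker_iff d c).1 hc)] at this
    · intro h c hc v hv
      rw [tw_ker ρ d w hwc c ((mem_ker_iff d c).1 hc)]
      exact h c hc v hv
  refine specP1' (tw ρ d w hwc) d.ker ?_ a (hss a ha hagood) (kmod d (dg d a)) ?_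
  · intro W hW
    obtain ⟨W', hW', hc⟩ := h0 W ((hst W).1 hW)
    exact ⟨W', (hst W').2 hW', hc⟩
  · intro W hW0 hWa g hg
    obtain ⟨k, hk⟩ := hg
    have hWa' : ∀ v ∈ W, tw ρ d w hwc a v ∈ W := hWa a rfl
    have hpow : ∀ n : ℕ, ∀ v ∈ W, tw ρ d w hwc (a ^ n) v ∈ W := by
      intro n
      induction n with
      | zero => intro v hv; simpa using hv
      | succ n ih =>
        intro v hv
        rw [pow_succ, map_mul]
        exact ih _ (hWa' v hv)
    have hzpow : ∀ n : ℤ, ∀ v ∈ W, tw ρ d w hwc (a ^ n) v ∈ W := by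
      intro n
      obtain ⟨n, rfl | rfl⟩ := n.eq_nat_or_neg
      · rw [zpow_natCast]
        exact hpow n
      · rw [zpow_neg, zpow_natCast]
        exact CL.stab_inv _ W _ (hpow n)
    have hgk : g = (g * a ^ (-k)) * a ^ k := by group
    intro v hv
    rw [hgk, map_mul]
    apply hW0 _ _ _ (hzpow k v hv)
    show g * a ^ (-k) ∈ d.ker
    rw [mem_ker_iff, dg_mul, dg_zpow, hk]
    ring

end exw

end MPb685TR
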