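import Pool.Agent.Lib.MP_b685ef_ag.TR.TR2
import Pool.Agent.Lib.MP_b685ef_ag.ZO.FinE

/-!
MP_b685ef_ag: transfer of Frobenius semisimplicity, part 3: the transfer theorem for every element.
-/

open Polynomial

namespace MPb685TR

open MPb685ZO MPb685ZO.JM

variable {K : Type*} [Field K] {V : Type*} [AddCommGroup V] [Module K V]
  {T : Type*} [AddCommGroup T] [Module K T] {G : Type*} [Group G]

/-- conjugation by `ρ g` is semisimple on the span of the `ρ c`, `c ∈ G0` (which it preserves if
`G0` is normal): every subspace of the span stable under conjugation by `g` has a complement in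
the span which is stable under conjugation by `g` -/
def AdSS (ρ : Representation K G V) (G0 : Subgroup G) (g : G) : Prop :=
  ∀ B : Submodule K (Module.End K V), B ≤ Submodule.span K (ρ '' (G0 : Set G)) →
    (∀ x ∈ B, ρ g * x * ρ g⁻¹ ∈ B) →
    ∃ B' : Submodule K (Module.End K V), (∀ x ∈ B', ρ g * x * ρ g⁻¹ ∈ B') ∧
      B ⊓ B' = ⊥ ∧ B ⊔ B' = Submodule.span K (ρ '' (G0 : Set G))

section basic

lemma Ad_rU (ρ : Representation K G V) (g : G) (x : Module.End K V) :
    Ad (rU ρ g) x = ρ g * x * ρ g⁻¹ := by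
  rw [Ad_apply, ← map_inv, rU_val, rU_val, mul_assoc]

lemma span_stable (ρ : Representation K G V) (G0 : Subgroup G) [G0.Normal] (g : G) :
    ∀ x ∈ Submodule.span K (ρ '' (G0 : Set G)),
      Ad (rU ρ g) x ∈ Submodule.span K (ρ '' (G0 : Set G)) := by
  intro x hx
  have hle : Submodule.span K (ρ '' (G0 : Set G)) ≤
      (Submodule.span K (ρ '' (G0 : Set G))).comap (Ad (rU ρ g)) := by
    refine Submodule.span_le.mpr ?_
    rintro _ ⟨c, hc, rfl⟩
    change Ad (rU ρ g) (ρ c) ∈ Submodule.span K (ρ '' (G0 : Set G))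
    rw [Ad_rho]
    exact Submodule.subset_span ⟨_, (inferInstance : G0.Normal).conj_mem c hc g, rfl⟩
  exact hle hx

theorem adSS_iff (ρ : Representation K G V) (G0 : Subgroup G) [G0.Normal] (g : G) :
    AdSS ρ G0 g ↔ Module.End.IsSemisimple
      ((Ad (rU ρ g)).restrict (span_stable ρ G0 g)) := by
  obtain ⟨M, hM⟩ : ∃ M : Submodule K (Module.End K V), M = Submodule.span K (ρ '' (G0 : Set G)) :=
    ⟨_, rfl⟩
  rw [Module.End.isSemisimple_iff]
  have hst := span_stable ρ G0 g
  show AdSS ρ G0 g ↔ ∀ p : Submodule K (Submodule.span K (ρ '' (G0 : Set G))),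
    p ∈ Module.End.invtSubmodule ((Ad (rU ρ g)).restrict hst) → ∃ q ∈
      Module.End.invtSubmodule ((Ad (rU ρ g)).restrict hst), IsCompl p q
  unfold AdSS
  revert hst
  rw [← hM]
  intro hst
  constructor
  · intro h p hp
    obtain ⟨B', hB', h1, h2⟩ := h (p.map M.subtype) (Submodule.map_subtype_le M p) (by
      rintro _ ⟨x, hx, rfl⟩
      refine ⟨_, hp hx, ?_⟩
      rw [← Ad_rU]
      rfl)
    have hB'M : B' ≤ M := by rw [← h2]; exact le_sup_right
    refine ⟨B'.comap M.subtype, ?_, ?_⟩
    · intro x hx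
      show Ad (rU ρ g) x ∈ B'
      rw [Ad_rU]
      exact hB' _ hx
    · constructor
      · rw [disjoint_iff, eq_bot_iff]
        intro x hx
        have h3 : (x : Module.End K V) ∈ p.map M.subtype ⊓ B' := ⟨⟨x, hx.1, rfl⟩, hx.2⟩
        rw [h1] at h3
        exact (Submodule.mem_bot K).2 (Subtype.ext ((Submodule.mem_bot K).1 h3))
      · rw [codisjoint_iff, eq_top_iff]
        intro x _
        have h3 : (x : Module.End K V) ∈ p.map M.subtype ⊔ B' := by
          rw [h2]
          exact x.2
        obtain ⟨y, ⟨y', hy', rfl⟩, z, hz, hyz⟩ := Submodule.mem_sup.1 h3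
        refine Submodule.mem_sup.2 ⟨y', hy', ⟨z, hB'M hz⟩, hz, Subtype.ext hyz⟩
  · intro h B hB hBg
    obtain ⟨q, hq, hpq⟩ := h (B.comap M.subtype) (by
      intro x hx
      show Ad (rU ρ g) x ∈ B
      rw [Ad_rU]
      exact hBg _ hx)
    have hBe : (B.comap M.subtype).map M.subtype = B := by
      rw [Submodule.map_comap_subtype]
      exact inf_eq_right.2 hB
    refine ⟨q.map M.subtype, ?_, ?_, ?_⟩
    · rintro _ ⟨x, hx, rfl⟩
      refine ⟨_, hq hx, ?_⟩
      rw [← Ad_rU]
      rfl
    · rw [← hBe, ← Submodule.map_inf _ M.injective_subtype, hpq.inf_eq_bot, Submodule.map_bot]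
    · rw [← hBe, ← Submodule.map_sup, hpq.sup_eq_top, Submodule.map_top, Submodule.range_subtype]

variable [CharZero K] [FiniteDimensional K V]

/-- the unipotent part of `ρ g` commutes with `G0` if conjugation by `ρ g` is semisimple on the
span of `ρ(G0)` -/
theorem comm_of_adSS (ρ : Representation K G V) (G0 : Subgroup G) [G0.Normal] (g : G)
    (hg : AdSS ρ G0 g) (s u : (Module.End K V)ˣ) (h : IsJD (rU ρ g) s u) :
    (u : Module.End K V) ∈ P1G.comm ρ G0 := by
  obtain ⟨N, hN, hNn, hNc⟩ := h.ad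
  have hJ := lemmaJ2 (Ad (rU ρ g)) N (Ad s) hN hNn (Ad_semisimple s h.ss) hNc _
    (span_stable ρ G0 g) ((adSS_iff ρ G0 g).1 hg)
  intro c hc
  have hcB : ρ c ∈ Submodule.span K (ρ '' (G0 : Set G)) := Submodule.subset_span ⟨c, hc, rfl⟩
  have h1 : Ad s (Ad u (ρ c)) = Ad s (ρ c) := by
    rw [hJ _ hcB, ← Module.End.mul_apply, ← Ad_mul, ← h.eq]
  have h2 := Ad_injective s h1
  exact ((Ad_eq_self_iff u (ρ c)).mp h2).eq

/-- conjugation by `V(g)` is semisimple on the span of `V(G0)` if `T(g)` is semisimple and the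
constituents of `V` on `G0` occur in `T` -/
theorem adSS_of_occ [FiniteDimensional K T] (ρ : Representation K G V)
    (τ : Representation K G T) (G0 : Subgroup G) [G0.Normal] (h0 : SSOn ρ (G0 : Set G))
    (hocc : ∀ S, Irr ρ (G0 : Set G) S → Occurs ρ τ (G0 : Set G) S) (g : G)
    (hg : Module.End.IsSemisimple (τ g)) : AdSS ρ G0 g :=
  (adSS_iff ρ G0 g).2 (ad_restrict_semisimple ρ τ G0 g (rel ρ τ _ h0 hocc) hg _)

omit [CharZero K] in
/-- `V(g)` is semisimple for `g ∈ G0` if `T(g)` is -/
theorem ss_of_occ_zero [FiniteDimensional K T] (ρ : Representation K G V)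
    (τ : Representation K G T) (G0 : Subgroup G) (h0 : SSOn ρ (G0 : Set G))
    (hocc : ∀ S, Irr ρ (G0 : Set G) S → Occurs ρ τ (G0 : Set G) S) (g : G) (hg0 : g ∈ G0)
    (hg : Module.End.IsSemisimple (τ g)) : Module.End.IsSemisimple (ρ g) := by
  set p := minpoly K (τ g) with hp
  have hsq : Squarefree p := Module.End.IsSemisimple.minpoly_squarefree hg
  have hp0 : aeval (τ g) p = 0 := minpoly.aeval K _
  have hgr : ∀ q : K[X], (aeval (τ g) q, aeval (ρ g) q) ∈ gr ρ τ (G0 : Set G) := by
    intro q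
    induction q using Polynomial.induction_on' with
    | add q r hq hr =>
      rw [map_add, map_add]
      exact (gr ρ τ (G0 : Set G)).add_mem hq hr
    | monomial n a =>
      have h1 : (τ (g ^ n), ρ (g ^ n)) ∈ gr ρ τ (G0 : Set G) :=
        Submodule.subset_span ⟨g ^ n, G0.pow_mem hg0 n, rfl⟩
      have h2 := (gr ρ τ (G0 : Set G)).smul_mem a h1
      rw [aeval_monomial, aeval_monomial, ← map_pow, ← map_pow, ← Algebra.smul_def,
        ← Algebra.smul_def]
      exact h2
  apply Module.End.isSemisimple_of_squarefree_aeval_eq_zero hsq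
  exact rel ρ τ _ h0 hocc _ (hgr p) hp0

end basic

section main

variable [CharZero K] [FiniteDimensional K V]

omit [CharZero K] [FiniteDimensional K V] in
lemma isUnit_rho (ρ : Representation K G V) (g : G) : IsUnit (ρ g) := (rU ρ g).isUnit

/-- `V` is semisimple over `G` if and only if `w = 1` -/
theorem ssOn_iff (ρ : Representation K G V) (d : G →* Multiplicative ℤ) (hd : ∃ g, d g ≠ 1)
    (h0 : SSOn ρ (d.ker : Set G)) (w : (Module.End K V)ˣ)
    (hw : ∀ g, Commute (w : Module.End K V) (ρ g))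
    (hn : IsNilpotent ((w : Module.End K V) - 1)) (hs : SSOn (tw ρ d w hw) Set.univ)
    (hgood : ∀ g, 0 < dg d g → (∀ s u : (Module.End K V)ˣ, IsJD (rU ρ g) s u →
        (u : Module.End K V) ∈ P1G.comm ρ d.ker) → Module.End.IsSemisimple (tw ρ d w hw g)) :
    SSOn ρ Set.univ ↔ w = 1 := by
  constructor
  swap
  · rintro rfl
    have : tw ρ d 1 hw = ρ := by
      ext g : 1
      rw [tw_apply, one_zpow, Units.val_one, mul_one]
    rwa [this] at hs
  intro h
  obtain ⟨a, ha, hag⟩ := exists_good ρ d hd h0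
  have hss := hgood a ha hag
  set n := (dg d a).toNat with hndef
  have hn' : (n : ℤ) = dg d a := Int.toNat_of_nonneg ha.le
  have hn0 : n ≠ 0 := by
    intro h1
    rw [h1] at hn'
    rw [← hn'] at ha
    exact lt_irrefl _ ha
  have hwu : Commute w (rU ρ a) := Units.ext (hw a).eq
  -- Jordan decomposition of `ρ a`
  have hJ : IsJD (rU ρ a) (rU (tw ρ d w hw) a) (w ^ n) := by
    have heq : rU ρ a = rU (tw ρ d w hw) a * w ^ n := by
      apply Units.ext
      rw [rU_val, Units.val_mul, rU_val, tw_mul ρ d w hw a, ← hn', zpow_natCast]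
    refine ⟨heq, ?_, hss, ?_⟩
    · have h1 : rU (tw ρ d w hw) a = rU ρ a * (w ^ n)⁻¹ := by rw [heq, mul_inv_cancel_right]
      rw [h1]
      exact ((hwu.symm.pow_right n).mul_left ((Commute.refl (w ^ n)).inv_left))
    · rw [Units.val_pow_eq_pow_val, ← geom_sum_mul]
      refine Commute.isNilpotent_mul_left ?_ hn
      apply Commute.sub_right _ (Commute.one_right _)
      exact Commute.sum_left _ _ _ fun i _ => (Commute.refl (w : Module.End K V)).pow_left i
  have h1 : ((w ^ n : (Module.End K V)ˣ) : Module.End K V) - 1 = 0 := by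
    apply central_nil ρ ⊤ (by simpa using h) _ _ _ hJ.un
    · intro c _
      have : Commute ((w ^ n : (Module.End K V)ˣ) : Module.End K V) (ρ c) := by
        rw [Units.val_pow_eq_pow_val]
        exact (hw c).pow_left n
      exact (this.sub_left (Commute.one_left _)).eq
    · intro y hy
      have h2 : Commute ((rU ρ a : (Module.End K V)ˣ) : Module.End K V) y :=
        (hy a (Subgroup.mem_top a)).symm
      have h3 := hJ.comm_of h2
      exact (h3.sub_left (Commute.one_left _)).eq
  have h2 : w ^ n = 1 := Units.ext (sub_eq_zero.mp h1)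
  have h3 : (w : Module.End K V) = 1 := by
    apply eq_one_of_pow (K := K) hn hn0
    rw [← Units.val_pow_eq_pow_val, h2, Units.val_one]
  exact Units.ext h3

end main

end MPb685TR
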