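import Pool.Agent.Lib.MP_b685ef_ag.TR.TR3

/-!
MP_b685ef_ag: transfer of Frobenius semisimplicity, part 4: the transfer theorem for every element.
-/

open Polynomial

namespace MPb685TR

open MPb685ZO MPb685ZO.JM

variable {K : Type*} [Field K] {V : Type*} [AddCommGroup V] [Module K V]
  {T : Type*} [AddCommGroup T] [Module K T] {G : Type*} [Group G]

/-- no irreducible constituent of `ρ` on `X` occurs twice: every map from an irreducible stable
subspace `S` to `V` which commutes with `X` maps `S` to `S` -/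
def MultFree (ρ : Representation K G V) (X : Set G) : Prop :=
  ∀ S, Irr ρ X S → ∀ f : Module.End K V, (∀ c ∈ X, ∀ v ∈ S, f (ρ c v) = ρ c (f v)) →
    ∀ v ∈ S, f v ∈ S

section basic

variable [FiniteDimensional K V]

/-- semisimplicity of the inverse -/
lemma ss_inv_iff (ρ : Representation K G V) (g : G) :
    Module.End.IsSemisimple (ρ g⁻¹) ↔ Module.End.IsSemisimple (ρ g) := by
  constructor
  · intro h
    refine P1G.semisimple_inv (ρ g⁻¹) (ρ g) ?_ h
    rw [← map_mul, mul_inv_cancel, map_one]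
  · intro h
    refine P1G.semisimple_inv (ρ g) (ρ g⁻¹) ?_ h
    rw [← map_mul, inv_mul_cancel, map_one]

lemma adSS_inv_of (ρ : Representation K G V) (G0 : Subgroup G) (g : G)
    (h : AdSS ρ G0 g) : AdSS ρ G0 g⁻¹ := by
  -- subspaces stable under conjugation by `g⁻¹` are stable under conjugation by `g`
  have key : ∀ (g : G) (B : Submodule K (Module.End K V)), (∀ x ∈ B, ρ g * x * ρ g⁻¹ ∈ B) →
      ∀ x ∈ B, ρ g⁻¹ * x * ρ g ∈ B := by
    intro g B hB x hx
    have h1 := P1G.stable_inv (Ad (rU ρ g)) (Ad (rU ρ g⁻¹)) (by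
      rw [← Ad_mul, ← map_mul, inv_mul_cancel, map_one]
      ext x : 1
      rw [Ad_apply]
      simp) B (by
      intro y hy
      rw [Ad_rU]
      exact hB y hy) x hx
    rw [Ad_rU, inv_inv] at h1
    exact h1
  intro B hB hBg
  obtain ⟨B', hB', h1, h2⟩ := h B hB (by
    have := key g⁻¹ B hBg
    rwa [inv_inv] at this)
  refine ⟨B', ?_, h1, h2⟩
  have := key g B' hB'
  rwa [inv_inv]

lemma adSS_inv_iff (ρ : Representation K G V) (G0 : Subgroup G) (g : G) :
    AdSS ρ G0 g⁻¹ ↔ AdSS ρ G0 g :=
  ⟨fun h => by simpa using adSS_inv_of ρ G0 g⁻¹ h, adSS_inv_of ρ G0 g⟩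

/-- if the restriction is multiplicity free then the unipotent operator is trivial -/
lemma eq_one_of_multFree (ρ : Representation K G V) (X : Set G) (h0 : SSOn ρ X)
    (hm : MultFree ρ X) (w : Module.End K V) (hw : ∀ g, Commute w (ρ g))
    (hn : IsNilpotent (w - 1)) : w = 1 := by
  have hz : w - 1 = 0 := by
    obtain ⟨k, hk⟩ := hn
    have hkill : ∀ S, Irr ρ X S → S ≤ LinearMap.ker (w - 1) := by
      intro S hS
      have hc : ∀ c : G, ∀ v, (w - 1) (ρ c v) = ρ c ((w - 1) v) := by
        intro c v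
        have h1 : Commute (w - 1) (ρ c) := (hw c).sub_left (Commute.one_left _)
        have := congrArg (fun f : Module.End K V => f v) h1.eq
        simpa using this
      have hS' := hm S hS (w - 1) (fun c _ v _ => hc c v)
      have hker : Stab ρ X (S ⊓ LinearMap.ker (w - 1)) := by
        intro c hcX v hv
        refine ⟨hS.2.1 c hcX v hv.1, ?_⟩
        show ρ c v ∈ LinearMap.ker (w - 1)
        rw [LinearMap.mem_ker, hc, LinearMap.mem_ker.1 hv.2, map_zero]
      rcases hS.2.2 _ hker inf_le_left with h | h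
      · exfalso
        -- `w - 1` is injective on `S`
        have hinj : ∀ n : ℕ, ∀ v ∈ S, ((w - 1) ^ n) v = 0 → v = 0 := by
          intro n
          induction n with
          | zero => intro v _ hv; simpa using hv
          | succ n ih =>
            intro v hv hv0
            rw [pow_succ, Module.End.mul_apply] at hv0
            have h1 := ih _ (hS' v hv) hv0
            have h2 : v ∈ S ⊓ LinearMap.ker (w - 1) := ⟨hv, h1⟩
            rw [h] at h2
            exact (Submodule.mem_bot K).1 h2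
        apply hS.1
        rw [eq_bot_iff]
        intro v hv
        rw [Submodule.mem_bot]
        exact hinj k v hv (by rw [hk]; rfl)
      · rw [← h]
        exact inf_le_right
    have htop : (⊤ : Submodule K V) ≤ LinearMap.ker (w - 1) := by
      rw [← sup_irr ρ X h0]
      exact sSup_le hkill
    exact LinearMap.ker_eq_top.1 (top_le_iff.1 htop)
  exact sub_eq_zero.1 hz

end basic

section main

variable [CharZero K] [FiniteDimensional K V]

lemma adSS_of_ss (ρ : Representation K G V) (G0 : Subgroup G) [G0.Normal] (g : G)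
    (h : Module.End.IsSemisimple (ρ g)) : AdSS ρ G0 g := by
  rw [adSS_iff]
  exact Module.End.IsSemisimple.restrict (p := Submodule.span K (ρ '' (G0 : Set G)))
    (span_stable ρ G0 g) (Ad_semisimple (rU ρ g) h)

omit [CharZero K] [FiniteDimensional K V] in
/-- conjugation by `ρ g` and by its twist agree on the span of `ρ(G0)` -/
lemma adSS_tw (ρ : Representation K G V) (d : G →* Multiplicative ℤ) (w : (Module.End K V)ˣ)
    (hw : ∀ g, Commute (w : Module.End K V) (ρ g)) (g : G) :
    AdSS (tw ρ d w hw) d.ker g ↔ AdSS ρ d.ker g := by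
  have him : (tw ρ d w hw) '' (d.ker : Set G) = ρ '' (d.ker : Set G) := by
    apply Set.image_congr
    intro c hc
    exact tw_ker ρ d w hw c ((mem_ker_iff d c).1 hc)
  have hcw : ∀ x ∈ Submodule.span K (ρ '' (d.ker : Set G)), ∀ n : ℤ,
      Commute ((w ^ n : (Module.End K V)ˣ) : Module.End K V) x := by
    intro x hx n
    have h1 : Commute (w : Module.End K V) x := by
      induction hx using Submodule.span_induction with
      | mem x hx =>
        obtain ⟨c, -, rfl⟩ := hx
        exact hw c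
      | zero => exact Commute.zero_right _
      | add x y _ _ hx hy => exact hx.add_right hy
      | smul a x _ hx => exact hx.smul_right a
    have h2 : ∀ k : ℕ, Commute ((w ^ k : (Module.End K V)ˣ) : Module.End K V) x := by
      intro k
      rw [Units.val_pow_eq_pow_val]
      exact h1.pow_left k
    obtain ⟨k, rfl | rfl⟩ := n.eq_nat_or_neg
    · rw [zpow_natCast]
      exact h2 k
    · rw [zpow_neg, zpow_natCast]
      exact (h2 k).units_inv_left
  have hconj : ∀ x ∈ Submodule.span K (ρ '' (d.ker : Set G)),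
      tw ρ d w hw g * x * tw ρ d w hw g⁻¹ = ρ g * x * ρ g⁻¹ := by
    intro x hx
    rw [tw_apply, tw_apply]
    have h1 := hcw x hx (-dg d g)
    have h2 : Commute ((w ^ (-dg d g) : (Module.End K V)ˣ) : Module.End K V) (ρ g⁻¹) := by
      have h3 : Commute w (rU ρ g⁻¹) := Units.ext (hw g⁻¹).eq
      exact congrArg Units.val (h3.zpow_left (-dg d g)).eq
    calc ρ g * ((w ^ (-dg d g) : (Module.End K V)ˣ) : Module.End K V) * x *
          (ρ g⁻¹ * ((w ^ (-dg d g⁻¹) : (Module.End K V)ˣ) : Module.End K V))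
        = ρ g * (((w ^ (-dg d g) : (Module.End K V)ˣ) : Module.End K V) * x) *
          ρ g⁻¹ * ((w ^ (-dg d g⁻¹) : (Module.End K V)ˣ) : Module.End K V) := by noncomm_ring
      _ = ρ g * x * (((w ^ (-dg d g) : (Module.End K V)ˣ) : Module.End K V) * ρ g⁻¹) *
          ((w ^ (-dg d g⁻¹) : (Module.End K V)ˣ) : Module.End K V) := by
            rw [h1.eq]; noncomm_ring
      _ = ρ g * x * ρ g⁻¹ * (((w ^ (-dg d g) : (Module.End K V)ˣ) : Module.End K V) *
          ((w ^ (-dg d g⁻¹) : (Module.End K V)ˣ) : Module.End K V)) := by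
            rw [h2.eq]; noncomm_ring
      _ = _ := by
            rw [← Units.val_mul, ← zpow_add, dg_inv, neg_neg, neg_add_cancel, zpow_zero,
              Units.val_one, mul_one]
  unfold AdSS
  rw [him]
  constructor
  · intro h B hB hBg
    obtain ⟨B', hB', h1, h2⟩ := h B hB (by
      intro x hx
      rw [hconj x (hB hx)]
      exact hBg x hx)
    refine ⟨B', ?_, h1, h2⟩
    intro x hx
    have hxM : x ∈ Submodule.span K (ρ '' (d.ker : Set G)) := by
      rw [← h2]
      exact (le_sup_right : B' ≤ B ⊔ B') hx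
    rw [← hconj x hxM]
    exact hB' x hx
  · intro h B hB hBg
    obtain ⟨B', hB', h1, h2⟩ := h B hB (by
      intro x hx
      rw [← hconj x (hB hx)]
      exact hBg x hx)
    refine ⟨B', ?_, h1, h2⟩
    intro x hx
    have hxM : x ∈ Submodule.span K (ρ '' (d.ker : Set G)) := by
      rw [← h2]
      exact (le_sup_right : B' ≤ B ⊔ B') hx
    rw [hconj x hxM]
    exact hB' x hx

/-- The transfer theorem. -/
theorem transfer (ρ : Representation K G V) (d : G →* Multiplicative ℤ) (hd : ∃ g, d g ≠ 1)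
    (h0 : SSOn ρ (d.ker : Set G)) :
    ∃ (w : (Module.End K V)ˣ) (hw : ∀ g, Commute (w : Module.End K V) (ρ g)),
      IsNilpotent ((w : Module.End K V) - 1) ∧ SSOn (tw ρ d w hw) Set.univ ∧
      (SSOn ρ Set.univ ↔ w = 1) ∧
      (MultFree ρ (d.ker : Set G) → w = 1) ∧
      (∀ g, dg d g ≠ 0 → (Module.End.IsSemisimple (tw ρ d w hw g) ↔ AdSS ρ d.ker g)) ∧
      (∀ g, dg d g ≠ 0 → (Module.End.IsSemisimple (ρ g) ↔ w = 1 ∧ AdSS ρ d.ker g)) ∧
      (∀ (g : G) (n : ℕ), dg d g = n → n ≠ 0 → AdSS ρ d.ker g →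
        (∀ j : ℕ, Module.finrank K (LinearMap.range ((ρ g - tw ρ d w hw g) ^ j)) =
          Module.finrank K (LinearMap.range (((w : Module.End K V) - 1) ^ j))) ∧
        ∀ s' w' : Module.End K V, s'.IsSemisimple → IsNilpotent (w' - 1) → Commute w' (ρ g) →
          ρ g = s' * w' ^ n → w' = w) ∧
      ∀ {T : Type*} [AddCommGroup T] [Module K T] [FiniteDimensional K T]
        (τ : Representation K G T),
        (∀ S, Irr ρ (d.ker : Set G) S → Occurs ρ τ (d.ker : Set G) S) →
        ∀ g, Module.End.IsSemisimple (τ g) → Module.End.IsSemisimple (tw ρ d w hw g) := by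
  obtain ⟨w, hw, hn, hs, hgood⟩ := exists_w ρ d hd h0
  refine ⟨w, hw, hn, hs, ssOn_iff ρ d hd h0 w hw hn hs hgood, ?_, ?_⟩
  · intro hm
    exact Units.ext (eq_one_of_multFree ρ _ h0 hm w hw hn)
  -- the twist at elements of nonzero degree
  have hiff : ∀ g, dg d g ≠ 0 → (Module.End.IsSemisimple (tw ρ d w hw g) ↔ AdSS ρ d.ker g) := by
    intro g hg
    constructor
    · intro h
      exact (adSS_tw ρ d w hw g).1 (adSS_of_ss _ _ g h)
    · intro h
      rcases lt_or_gt_of_ne hg with hlt | hgt
      · rw [← ss_inv_iff]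
        apply hgood g⁻¹
        · rw [dg_inv]
          linarith
        · intro s u hsu
          exact comm_of_adSS ρ d.ker g⁻¹ ((adSS_inv_iff ρ d.ker g).2 h) s u hsu
      · exact hgood g hgt fun s u hsu => comm_of_adSS ρ d.ker g h s u hsu
  have hpos : ∀ (g : G) (n : ℕ), dg d g = n → ρ g = tw ρ d w hw g * (w : Module.End K V) ^ n := by
    intro g n hgn
    rw [tw_mul ρ d w hw g, hgn, zpow_natCast, Units.val_pow_eq_pow_val]
  have hone : ∀ (g : G), 0 < dg d g → Module.End.IsSemisimple (ρ g) → w = 1 := by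
    intro g hg h
    have hn' : dg d g = ((dg d g).toNat : ℤ) := (Int.toNat_of_nonneg hg.le).symm
    have hn0 : (dg d g).toNat ≠ 0 := by
      intro h1
      rw [h1] at hn'
      rw [hn'] at hg
      exact lt_irrefl _ hg
    exact Units.ext (FinD.eq_one_of_ss (ρ g) (tw ρ d w hw g) w (isUnit_rho ρ g) h
      ((hiff g hg.ne').2 (adSS_of_ss ρ d.ker g h)) hn (hw g) hn0 (hpos g _ hn'))
  refine ⟨hiff, ?_, ?_, ?_⟩
  · intro g hg
    constructor
    · intro h
      refine ⟨?_, adSS_of_ss ρ d.ker g h⟩
      rcases lt_or_gt_of_ne hg with hlt | hgt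
      · exact hone g⁻¹ (by rw [dg_inv]; linarith) ((ss_inv_iff ρ g).2 h)
      · exact hone g hgt h
    · rintro ⟨rfl, h⟩
      have h1 := (hiff g hg).2 h
      rwa [tw_apply, one_zpow, Units.val_one, mul_one] at h1
  · intro g n hgn hn0 hAd
    have hg : dg d g ≠ 0 := by
      rw [hgn]
      exact_mod_cast hn0
    have hss := (hiff g hg).2 hAd
    refine ⟨fun j => ?_, ?_⟩
    · exact FinD.rank_eq (ρ g) (tw ρ d w hw g) w (isUnit_rho ρ g) hn (hw g) hn0 (hpos g n hgn) j
    · intro s' w' hs' hw' hcw' hgs'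
      exact FinE.unip_unique (ρ g) (tw ρ d w hw g) w s' w' (isUnit_rho ρ g) hss hn (hw g) hs' hw'
        hcw' hn0 (hpos g n hgn) hgs'
  · intro T _ _ _ τ hocc g hτ
    by_cases hg : dg d g = 0
    · rw [tw_ker ρ d w hw g hg]
      exact ss_of_occ_zero ρ τ d.ker h0 hocc g ((mem_ker_iff d g).2 hg) hτ
    · exact (hiff g hg).2 (adSS_of_occ ρ τ d.ker h0 hocc g hτ)

end main

end MPb685TR
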